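import Pool.Agent.ZPK.StmtsR

/-!
# Squad ZPK, row ARU: arithmetic of the upper end
-/

set_option autoImplicit false

namespace Pool.Agent.ZPK.H78

open Pool.Agent.ZPT Pool.Agent.ZP3

theorem pow_gt {p β : ℕ} (h5 : 5 ≤ p) (hβ : 1 ≤ β) : β + 2 < p ^ β := by
  have h1 : 5 ^ β ≤ p ^ β := Nat.pow_le_pow_left h5 β
  have h2 : ∀ n : ℕ, n + 3 < 5 ^ (n + 1) := by
    intro n
    induction n with
    | zero => norm_num
    | succ n ih => rw [pow_succ]; omega
  obtain ⟨n, rfl⟩ := Nat.exists_eq_add_of_le' hβ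
  have := h2 n
  omega

theorem key (p E A B β j e' c d : ℕ) (hp : p.Prime) (h5 : 5 ≤ p) (hE : 4 * E + 4 < p)
    (hB : 1 ≤ B) (hAB : B < A) (hco : Nat.Coprime A B) (he1 : 1 ≤ e') (heE : e' ≤ E)
    (hβ : 1 ≤ β) (hpB : p ^ β ∣ B) (hnB : ¬ p ^ (β + 1) ∣ B)
    (H : 1 ≤ j → (A - B) * (p - 1) * p ^ (j - 1) < A) (hc1 : 1 ≤ c) (hcE : c ≤ E) (hd : d ≤ 1)
    (h : (B : ℤ) * (c + e' * (p : ℤ) ^ j) = A * (e' * ((p : ℤ) ^ j - j + d + β))) :
    d = 0 ∧ j = β := by
  have hpB1 : p ∣ B := (dvd_pow_self p (by omega)).trans hpB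
  have hpA : ¬ p ∣ A := by
    intro h1
    have h2 := Nat.dvd_gcd h1 hpB1
    rw [hco] at h2
    have := Nat.le_of_dvd one_pos h2
    omega
  have hpe : ¬ p ∣ e' := by
    intro h1
    have := Nat.le_of_dvd (by omega) h1
    omega
  have hcoA : Nat.Coprime p A := (Nat.Prime.coprime_iff_not_dvd hp).2 hpA
  have hcoe : Nat.Coprime p e' := (Nat.Prime.coprime_iff_not_dvd hp).2 hpe
  rcases Nat.eq_zero_or_pos j with hj | hj
  · exfalso
    subst hj
    have h1 : B * (c + e') = A * (e' * (1 + d + β)) := by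
      have h2 : (B : ℤ) * (c + e') = A * (e' * (1 + d + β)) := by
        rw [pow_zero, mul_one] at h
        rw [h]
        push_cast
        ring
      exact_mod_cast h2
    have h3 : p ^ β ∣ A * (e' * (1 + d + β)) := by
      rw [← h1]
      exact Dvd.dvd.mul_right hpB _
    have h4 : p ^ β ∣ e' * (1 + d + β) :=
      Nat.Coprime.dvd_of_dvd_mul_left (Nat.Coprime.pow_left β hcoA) h3
    have h6 : p ^ β ∣ 1 + d + β :=
      Nat.Coprime.dvd_of_dvd_mul_left (Nat.Coprime.pow_left β hcoe) h4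
    have h7 := Nat.le_of_dvd (by omega) h6
    have h8 := pow_gt h5 hβ
    omega
  · have hpj : p ∣ p ^ j := dvd_pow_self p (by omega)
    have hpjpos : 0 < p ^ j := Nat.pow_pos (by omega)
    have hpjle : p ≤ p ^ j := Nat.le_of_dvd hpjpos hpj
    have hpz : Prime (p : ℤ) := Nat.prime_iff_prime_int.1 hp
    have hT : (p : ℤ) ∣ (p : ℤ) ^ j - j + d + β := by
      have h1 : (p : ℤ) ∣ A * (e' * ((p : ℤ) ^ j - j + d + β)) := by
        rw [← h]
        exact Dvd.dvd.mul_right (Int.natCast_dvd_natCast.2 hpB1) _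
      rcases hpz.dvd_or_dvd h1 with h2 | h2
      · exact absurd (Int.natCast_dvd_natCast.1 h2) hpA
      · rcases hpz.dvd_or_dvd h2 with h3 | h3
        · exact absurd (Int.natCast_dvd_natCast.1 h3) hpe
        · exact h3
    have hX : (p : ℤ) ∣ (d : ℤ) + β - j := by
      have h1 : (d : ℤ) + β - j = ((p : ℤ) ^ j - j + d + β) - (p : ℤ) ^ j := by ring
      rw [h1]
      exact dvd_sub hT (dvd_pow_self _ (by omega))
    have hPz : (0 : ℤ) < (p : ℤ) ^ j := by exact_mod_cast hpjpos
    have hPle : (p : ℤ) ≤ (p : ℤ) ^ j := by exact_mod_cast hpjle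
    have hAz : (0 : ℤ) < A := by exact_mod_cast (by omega : 0 < A)
    have hBz : (1 : ℤ) ≤ B := by exact_mod_cast hB
    have hABz : (B : ℤ) < A := by exact_mod_cast hAB
    have hcz : (1 : ℤ) ≤ c := by exact_mod_cast hc1
    have hez : (1 : ℤ) ≤ e' := by exact_mod_cast he1
    have hcp : (c : ℤ) < p := by exact_mod_cast (by omega : c < p)
    rcases lt_trichotomy ((d : ℤ) + β - j) 0 with hlt | heq | hgt
    · exfalso
      obtain ⟨Y, hY⟩ : ∃ Y : ℤ, Y = j - β - d := ⟨_, rfl⟩
      have hY0 : 0 < Y := by rw [hY]; linarith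
      have hYp : (p : ℤ) ≤ Y := by
        refine Int.le_of_dvd hY0 ?_
        have : Y = -((d : ℤ) + β - j) := by rw [hY]; ring
        rw [this]
        exact (dvd_neg).2 hX
      have h1 : ((A : ℤ) - B) * (c + e' * (p : ℤ) ^ j) = A * (c + e' * Y) := by
        rw [sub_mul, h, hY]
        ring
      have h2 : ((A : ℤ) - B) * (p - 1) * (p : ℤ) ^ (j - 1) < A := by
        have h3 := H hj
        have h4 : ((((A - B) * (p - 1) * p ^ (j - 1) : ℕ)) : ℤ) < (A : ℤ) := by exact_mod_cast h3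
        rw [Nat.cast_mul, Nat.cast_mul, Nat.cast_sub hAB.le, Nat.cast_sub (by omega : 1 ≤ p),
          Nat.cast_pow, Nat.cast_one] at h4
        exact h4
      have hS : (0 : ℤ) < c + e' * (p : ℤ) ^ j := by positivity
      have h3 : ((A : ℤ) - B) * (p - 1) * (p : ℤ) ^ (j - 1) * (c + e' * (p : ℤ) ^ j)
          < A * (c + e' * (p : ℤ) ^ j) := mul_lt_mul_of_pos_right h2 hS
      have h4 : (A : ℤ) * ((c + e' * Y) * (p - 1) * (p : ℤ) ^ (j - 1))
          < A * (c + e' * (p : ℤ) ^ j) := by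
        refine lt_of_eq_of_lt ?_ h3
        calc (A : ℤ) * ((c + e' * Y) * (p - 1) * (p : ℤ) ^ (j - 1))
            = (A * (c + e' * Y)) * ((p - 1) * (p : ℤ) ^ (j - 1)) := by ring
          _ = (((A : ℤ) - B) * (c + e' * (p : ℤ) ^ j)) * ((p - 1) * (p : ℤ) ^ (j - 1)) := by
              rw [h1]
          _ = _ := by ring
      have h5' : (c + e' * Y) * ((p : ℤ) - 1) * (p : ℤ) ^ (j - 1) < c + e' * (p : ℤ) ^ j :=
        lt_of_mul_lt_mul_left h4 hAz.le
      have hQ : (0 : ℤ) < (p : ℤ) ^ (j - 1) := by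
        have : 0 < p ^ (j - 1) := Nat.pow_pos (by omega)
        exact_mod_cast this
      have hpp : (p : ℤ) * (p : ℤ) ^ (j - 1) = (p : ℤ) ^ j := by
        rw [← pow_succ', Nat.sub_add_cancel hj]
      have hp5 : (5 : ℤ) ≤ p := by exact_mod_cast h5
      have h6 : 4 * (e' * (p : ℤ) ^ j) ≤ (c + e' * Y) * ((p : ℤ) - 1) * (p : ℤ) ^ (j - 1) := by
        have h7 : (e' : ℤ) * p ≤ c + e' * Y := by
          have : (e' : ℤ) * p ≤ e' * Y := mul_le_mul_of_nonneg_left hYp (by linarith)
          linarith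
        calc 4 * (e' * (p : ℤ) ^ j) = (e' * p) * 4 * (p : ℤ) ^ (j - 1) := by rw [← hpp]; ring
          _ ≤ (e' * p) * ((p : ℤ) - 1) * (p : ℤ) ^ (j - 1) := by
              refine mul_le_mul_of_nonneg_right ?_ hQ.le
              refine mul_le_mul_of_nonneg_left (by linarith) (by positivity)
          _ ≤ (c + e' * Y) * ((p : ℤ) - 1) * (p : ℤ) ^ (j - 1) := by
              refine mul_le_mul_of_nonneg_right ?_ hQ.le
              exact mul_le_mul_of_nonneg_right h7 (by linarith)
      have h8 : (p : ℤ) ^ j ≤ e' * (p : ℤ) ^ j := le_mul_of_one_le_left hPz.le hez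
      linarith
    · have hj' : j = d + β := by
        have : (j : ℤ) = ((d + β : ℕ) : ℤ) := by push_cast; linarith
        exact_mod_cast this
      rcases Nat.eq_zero_or_pos d with hd0 | hd0
      · exact ⟨hd0, by omega⟩
      · exfalso
        have hd1 : d = 1 := by omega
        have hj2 : j = β + 1 := by omega
        have h1 : B * (c + e' * p ^ j) = A * (e' * p ^ j) := by
          have h2 : (B : ℤ) * (c + e' * (p : ℤ) ^ j) = A * (e' * (p : ℤ) ^ j) := by
            rw [h]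
            have h3 : (p : ℤ) ^ j - j + d + β = (p : ℤ) ^ j + (d + β - j) := by ring
            rw [h3, heq, add_zero]
          exact_mod_cast h2
        have h2 : p ^ (β + 1) ∣ B * (c + e' * p ^ j) := by
          rw [h1, hj2]
          exact Dvd.dvd.mul_left (Dvd.intro_left _ rfl) _
        have h3 : Nat.Coprime p (c + e' * p ^ j) := by
          rw [Nat.Prime.coprime_iff_not_dvd hp]
          intro h4
          have h6 : p ∣ c := (Nat.dvd_add_left (Dvd.dvd.mul_left hpj e')).1 h4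
          have := Nat.le_of_dvd (by omega) h6
          omega
        exact hnB (Nat.Coprime.dvd_of_dvd_mul_right (Nat.Coprime.pow_left _ h3) h2)
    · exfalso
      obtain ⟨Z, hZ⟩ : ∃ Z : ℤ, Z = d + β - j := ⟨_, rfl⟩
      rw [← hZ] at hX hgt
      have hZp : (p : ℤ) ≤ Z := Int.le_of_dvd hgt hX
      have h1 : (A : ℤ) * (e' * ((p : ℤ) ^ j + Z)) < A * (c + e' * (p : ℤ) ^ j) := by
        have h2 : (p : ℤ) ^ j + Z = (p : ℤ) ^ j - j + d + β := by rw [hZ]; ring
        rw [h2, ← h]
        exact mul_lt_mul_of_pos_right hABz (by positivity)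
      have h2 : e' * ((p : ℤ) ^ j + Z) < c + e' * (p : ℤ) ^ j := lt_of_mul_lt_mul_left h1 hAz.le
      have h3 : Z ≤ e' * Z := le_mul_of_one_le_left hgt.le hez
      rw [mul_add] at h2
      linarith

theorem aru : AruStmt := by
  intro p E hp h5 hE A B β j e' hB hAB hco he1 heE
  refine ⟨?_, ?_⟩
  · intro h1 x y hx1 hxE h2
    have h3 : A ∣ x * B := by
      rw [h2]
      exact Dvd.intro_left _ rfl
    have h4 : A ∣ x := Nat.Coprime.dvd_of_dvd_mul_right hco h3
    have h6 := Nat.le_of_dvd (by omega) h4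
    have h7 : 1 * (p - 1) ≤ (A - B) * (p - 1) := Nat.mul_le_mul_right _ (by omega)
    omega
  · intro hβ hpB hnB H
    refine ⟨?_, ?_, ?_⟩
    · intro N h1
      have h2 : (A : ℤ) ∣ (p : ℤ) ^ j * (A - B) :=
        ⟨N - β + j, by linear_combination h1⟩
      have h3 : (A : ℤ) ∣ (p : ℤ) ^ j * B := by
        have h4 : (p : ℤ) ^ j * B = (p : ℤ) ^ j * A - (p : ℤ) ^ j * (A - B) := by ring
        rw [h4]
        exact dvd_sub (Dvd.intro_left _ rfl) h2
      have h4 : A ∣ p ^ j * B := by exact_mod_cast h3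
      have h6 : A ∣ p ^ j := Nat.Coprime.dvd_of_dvd_mul_right hco h4
      obtain ⟨i, hi, hAi⟩ := (Nat.dvd_prime_pow hp).1 h6
      have hi0 : i ≠ 0 := by
        intro h7
        rw [h7, pow_zero] at hAi
        omega
      have hpA : p ∣ A := by
        rw [hAi]
        exact dvd_pow_self p hi0
      have hpB1 : p ∣ B := (dvd_pow_self p (by omega)).trans hpB
      have h8 := Nat.dvd_gcd hpA hpB1
      rw [hco] at h8
      have := Nat.le_of_dvd one_pos h8
      omega
    · intro c hc1 hcE h1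
      have h2 := key p E A B β j e' c 1 hp h5 hE hB hAB hco he1 heE hβ hpB hnB H hc1 hcE le_rfl (by
        push_cast
        linear_combination -h1)
      exact absurd h2.1 one_ne_zero
    · intro c hc1 hcE h1
      have h2 := key p E A B β j e' c 0 hp h5 hE hB hAB hco he1 heE hβ hpB hnB H hc1 hcE
        (by omega) (by
        push_cast
        linear_combination -h1)
      have hj := h2.2
      refine ⟨hj, ?_⟩
      rw [hj] at h1
      have h3 : (B : ℤ) * (c + e' * (p : ℤ) ^ β) = A * (e' * (p : ℤ) ^ β) := by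
        linear_combination -h1
      exact_mod_cast h3

end Pool.Agent.ZPK.H78
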