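import Pool.Agent.ZPK.StmtsL

set_option autoImplicit false
set_option linter.unusedSectionVars false

/-! Squad ZPK, row GPS. -/

namespace Pool.Agent.ZPK.H78

open Polynomial Pool.Agent.ZPT Pool.Agent.ZP3

section

variable {K : Type} [NormedField K] [CharZero K] [IsUltrametricDist K] {p : ℕ}

theorem norm_p (hp : p.Prime) (he : Ext p K) : ‖(p : K)‖ = (p : ℝ)⁻¹ := by
  have : Fact p.Prime := ⟨hp⟩
  have h := he (p : ℚ)
  rw [padicNorm.padicNorm_p hp.one_lt] at h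
  simpa using h

theorem add_le' {x y : K} {c : ℝ} (hx : ‖x‖ ≤ c) (hy : ‖y‖ ≤ c) : ‖x + y‖ ≤ c :=
  (IsUltrametricDist.norm_add_le_max x y).trans (max_le hx hy)

theorem sub_le' {x y : K} {c : ℝ} (hx : ‖x‖ ≤ c) (hy : ‖y‖ ≤ c) : ‖x - y‖ ≤ c := by
  rw [sub_eq_add_neg]
  exact add_le' hx (by rwa [norm_neg])

theorem add_lt' {x y : K} {c : ℝ} (hx : ‖x‖ < c) (hy : ‖y‖ < c) : ‖x + y‖ < c :=
  (IsUltrametricDist.norm_add_le_max x y).trans_lt (max_lt hx hy)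

theorem norm_add_of_lt {x y : K} (h : ‖y‖ < ‖x‖) : ‖x + y‖ = ‖x‖ := by
  rw [IsUltrametricDist.norm_add_eq_max_of_norm_ne_norm h.ne', max_eq_left h.le]

/-- Frobenius modulo `p` -/
theorem frob (hp : p.Prime) (hodd : Odd p) (hpn : ‖(p : K)‖ = (p : ℝ)⁻¹) {a b : K} (ha : ‖a‖ ≤ 1)
    (hb : ‖b‖ ≤ 1) (n : ℕ) :
    ‖(a - b) ^ (p ^ n) - (a ^ (p ^ n) - b ^ (p ^ n))‖ ≤ (p : ℝ)⁻¹ := by
  have h1 := add_pow_prime_pow_eq hp a (-b) n
  have h2 : (-b) ^ (p ^ n) = -(b ^ (p ^ n)) := (hodd.pow).neg_pow b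
  rw [h2] at h1
  rw [sub_eq_add_neg a b, h1]
  have h3 : a ^ p ^ n + -b ^ p ^ n +
      (p : K) * a * -b * ∑ k ∈ Finset.Ioo 0 (p ^ n), a ^ (k - 1) * (-b) ^ (p ^ n - k - 1) *
        (((p ^ n).choose k / p : ℕ) : K) - (a ^ p ^ n - b ^ p ^ n) =
      (p : K) * (a * -b * ∑ k ∈ Finset.Ioo 0 (p ^ n), a ^ (k - 1) * (-b) ^ (p ^ n - k - 1) *
        (((p ^ n).choose k / p : ℕ) : K)) := by ring
  rw [h3, norm_mul, hpn]
  refine mul_le_of_le_one_right (by positivity) ?_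
  rw [norm_mul, norm_mul, norm_neg]
  have h4 : ‖∑ k ∈ Finset.Ioo 0 (p ^ n), a ^ (k - 1) * (-b) ^ (p ^ n - k - 1) *
      (((p ^ n).choose k / p : ℕ) : K)‖ ≤ 1 := by
    refine IsUltrametricDist.norm_sum_le_of_forall_le_of_nonneg zero_le_one fun k _ => ?_
    rw [norm_mul, norm_mul, norm_pow, norm_pow, norm_neg]
    refine mul_le_one₀ (mul_le_one₀ (pow_le_one₀ (norm_nonneg _) ha) (by positivity)
      (pow_le_one₀ (norm_nonneg _) hb)) (norm_nonneg _) ?_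
    have := IsUltrametricDist.norm_intCast_le_one K (((p ^ n).choose k / p : ℕ) : ℤ)
    rwa [Int.cast_natCast] at this
  exact mul_le_one₀ (mul_le_one₀ ha (norm_nonneg _) hb) (norm_nonneg _) h4

theorem one_add_ne {x : K} (hx : ‖x‖ < 1) : 1 + x ≠ 0 := by
  intro h
  have : x = -1 := by linear_combination h
  rw [this, norm_neg, norm_one] at hx
  exact lt_irrefl _ hx

theorem norm_one_add {x : K} (hx : ‖x‖ < 1) : ‖1 + x‖ = 1 := by
  have h : ‖x‖ < ‖(1 : K)‖ := by rwa [norm_one]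
  rw [norm_add_of_lt h, norm_one]

variable {Log : K → K}

/-- the facts of `LGB` which are used -/
structure LF (p : ℕ) (Log : K → K) : Prop where
  pw : ∀ (x : K) (n : ℤ), x ≠ 0 → Log (x ^ n) = n * Log x
  ro : ∀ x : K, Ro x → Log x = 0
  sm : ∀ x : K, ‖x‖ < th p → ‖Log (1 + x)‖ = ‖x‖
  bd : ∀ (d : K) (k : ℕ), ‖d‖ < 1 →
    ‖(1 + d) ^ (p ^ k) - 1‖ ≤ max (‖d‖ ^ (p ^ k)) (p : ℝ)⁻¹

theorem pk_log (hL : LF p Log) {x : K} {k : ℕ} {c : ℝ} (hx : ‖x‖ < 1) (h1 : ‖x‖ ^ (p ^ k) < c)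
    (h2 : (p : ℝ)⁻¹ < c) (h3 : c ≤ th p) : ‖(p : K) ^ k * Log (1 + x)‖ < c := by
  have h4 := hL.pw (1 + x) ((p ^ k : ℕ) : ℤ) (one_add_ne hx)
  rw [zpow_natCast] at h4
  have h5 : (((p ^ k : ℕ) : ℤ) : K) = (p : K) ^ k := by push_cast; ring
  rw [h5] at h4
  rw [← h4]
  have h6 : ‖(1 + x) ^ (p ^ k) - 1‖ < c := (hL.bd x k hx).trans_lt (max_lt h1 h2)
  have h7 := hL.sm ((1 + x) ^ (p ^ k) - 1) (h6.trans_le h3)
  rw [add_sub_cancel] at h7
  rw [h7]
  exact h6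

end

/-- **GPS** -/
theorem gps (thb : ZP3.THBStmt) (wwn : ZP3.WWNStmt) (lgb : LgbStmt) (gla : GlaStmt)
    (glb : GlbStmt) : GpsStmt := by
  intro p hp hp7 K _ _ _ he Log hLog k ξ d r₁ r₂ n₁ n₂ hξ hd hdk hr₁ hr₂ hcond
  obtain ⟨t1, t0, tl, tp, _⟩ := thb p hp (by omega)
  obtain ⟨⟨l1, l2⟩, _, l4, l5, _, _, l8⟩ := lgb p hp (by omega) K he Log hLog
  have hL : LF p Log := ⟨l2, l4, l5, l8⟩
  have hpn := norm_p (K := K) hp he
  have hodd : Odd p := hp.odd_of_ne_two (by omega)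
  obtain ⟨w1, w2, w3, _⟩ := wwn p hp (by omega) K he (k + 1) ξ (by omega) hξ
  rw [Nat.add_sub_cancel] at w1
  have hp1 : 0 < p - 1 := by omega
  have ht2 : th p ^ 2 < th p := by nlinarith
  have ht3 : th p ^ 3 < th p ^ 2 := by nlinarith [pow_pos t0 2]
  -- `‖P‖ ^ (p ^ k) = th`
  have hP : ‖ξ - 1‖ ^ (p ^ k) = th p := by
    rw [pow_mul] at w1
    rw [← t1] at w1
    exact (pow_left_inj₀ (by positivity) t0.le hp1.ne').1 w1
  have hP0 : ξ - 1 ≠ 0 := by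
    intro h
    rw [h, norm_zero] at w2
    linarith
  have hPn : 0 < ‖ξ - 1‖ := norm_pos_iff.2 hP0
  have hξ1 : ‖ξ‖ = 1 := by
    have h := congrArg norm hξ.pow_eq_one
    rw [norm_pow, norm_one] at h
    exact (pow_eq_one_iff_of_nonneg (norm_nonneg _) (by positivity)).1 h
  -- `y = P (1 + x)`
  obtain ⟨x, hx⟩ : ∃ x : K, x = ξ * d / (ξ - 1) := ⟨_, rfl⟩
  have hy : ξ * (1 + d) - 1 = (ξ - 1) * (1 + x) := by
    rw [hx]
    field_simp
    ring
  have hxn : ‖x‖ = ‖d‖ / ‖ξ - 1‖ := by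
    rw [hx, norm_div, norm_mul, hξ1, one_mul]
  have hxk : ‖x‖ ^ (p ^ k) < th p ^ 2 := by
    rw [hxn, div_pow, hP, div_lt_iff₀ t0]
    calc ‖d‖ ^ (p ^ k) < th p ^ 3 := hdk
      _ = th p ^ 2 * th p := by ring
  have hx1 : ‖x‖ < 1 := by
    by_contra h
    have h1 := one_le_pow₀ (n := p ^ k) (not_lt.1 h)
    nlinarith [pow_pos t0 2]
  have hφn : ‖((p - 1 : ℕ) : K)‖ ≤ 1 := by
    have := IsUltrametricDist.norm_intCast_le_one K ((p - 1 : ℕ) : ℤ)
    rwa [Int.cast_natCast] at this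
  have hcast : ((p ^ k * (p - 1) : ℕ) : K) = (p : K) ^ k * ((p - 1 : ℕ) : K) := by
    push_cast
    ring
  -- the first term
  have hfirst : ‖((p ^ k * (p - 1) : ℕ) : K) * Log (ξ * (1 + d) - 1)‖ = th p ^ 2 := by
    rw [hy, hLog.mul _ _ hP0 (one_add_ne hx1), mul_add]
    have h1 := gla p hp hp7 K he Log hLog k ξ hξ
    have h2 : ‖((p ^ k * (p - 1) : ℕ) : K) * Log (1 + x)‖ < th p ^ 2 := by
      have h3 := pk_log hL hx1 hxk (tp.trans ht3) ht2.le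
      have h4 : ((p ^ k * (p - 1) : ℕ) : K) * Log (1 + x) =
          ((p - 1 : ℕ) : K) * ((p : K) ^ k * Log (1 + x)) := by
        rw [hcast]
        ring
      rw [h4, norm_mul]
      exact (mul_le_of_le_one_left (norm_nonneg _) hφn).trans_lt h3
    rw [norm_add_of_lt (by rw [h1]; exact h2), h1]
  have hyn : ∀ r : K, ‖r‖ ≤ 1 → ‖r * (ξ * (1 + d) - 1)‖ < 1 := by
    intro r hr
    rw [norm_mul, hy, norm_mul, norm_one_add hx1, mul_one]
    exact (mul_le_of_le_one_left (norm_nonneg _) hr).trans_lt w3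
  rcases hcond with ⟨hc1, hc2⟩ | ⟨hc, hN⟩
  · -- all other terms are small
    have hd1 : Log (ξ * (1 + d)) = Log (1 + d) := by
      have hξ0 : ξ ≠ 0 := by
        intro h
        rw [h, norm_zero] at hξ1
        exact zero_ne_one hξ1
      rw [hLog.mul _ _ hξ0 (one_add_ne hd), hL.ro ξ ⟨p ^ (k + 1), Nat.one_le_iff_ne_zero.2
        (by have := hp.pos; positivity), hξ.pow_eq_one⟩, zero_add]
    have key : ∀ (r : K) (n : ℤ), (n = 0 ∨ r = 0 ∨ (r = 1 ∧ (‖d‖ < th p ^ 3 ∨ (p : ℤ) ^ k ∣ n))) →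
        ‖(n : K) * Log (1 + r * (ξ * (1 + d) - 1))‖ < th p ^ 2 := by
      intro r n h
      have h0 : (0 : ℝ) < th p ^ 2 := by positivity
      rcases h with h | h | ⟨h, h'⟩
      · rw [h, Int.cast_zero, zero_mul, norm_zero]
        exact h0
      · rw [h, zero_mul, add_zero, l1, mul_zero, norm_zero]
        exact h0
      · rw [h, one_mul, add_sub_cancel, hd1]
        rcases h' with h' | h'
        · rw [norm_mul, hL.sm d (h'.trans (ht3.trans ht2))]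
          exact (mul_le_of_le_one_left (norm_nonneg _)
            (IsUltrametricDist.norm_intCast_le_one K n)).trans_lt (h'.trans ht3)
        · obtain ⟨m, rfl⟩ := h'
          have h3 := pk_log hL hd hdk tp (ht3.trans ht2).le
          have h4 : (((p : ℤ) ^ k * m : ℤ) : K) * Log (1 + d) =
              (m : K) * ((p : K) ^ k * Log (1 + d)) := by
            push_cast
            ring
          rw [h4, norm_mul]
          exact (mul_le_of_le_one_left (norm_nonneg _)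
            (IsUltrametricDist.norm_intCast_le_one K m)).trans_lt (h3.trans ht3)
    have h1 := add_lt' (key r₁ n₁ hc1) (key r₂ n₂ hc2)
    rw [add_assoc, norm_add_of_lt (by rw [hfirst]; exact h1), hfirst]
  · -- the other terms are large
    obtain ⟨π, hπ⟩ : ∃ π : K, π = ξ ^ (p ^ k) - 1 := ⟨_, rfl⟩
    have hπn : ‖π‖ = th p := by
      have h1 : IsPrimitiveRoot (ξ ^ (p ^ k)) (p ^ 1) :=
        hξ.pow (by have := hp.pos; positivity) (by rw [pow_one]; exact pow_succ p k)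
      rw [hπ]
      exact (wwn p hp (by omega) K he 1 _ le_rfl h1).2.2.2 rfl
    obtain ⟨N, hNd⟩ : ∃ N : ℝ, N = max ‖(n₁ : K)‖ ‖(n₂ : K)‖ := ⟨_, rfl⟩
    rw [← hNd] at hc hN
    have hN0 : 0 < N := lt_of_lt_of_le (by have := hp.pos; positivity) hN
    have key : ∀ (r : K) (n : ℤ), ‖r‖ ≤ 1 → ‖(n : K)‖ ≤ N →
        ‖(p : K) ^ k * ((n : K) * Log (1 + r * (ξ * (1 + d) - 1))) -
          π * ((n : K) * (r - r ^ p) ^ (p ^ k))‖ ≤ N * th p ^ 2 := by
      intro r n hr hn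
      have hrP : ‖r * (ξ - 1)‖ < 1 := by
        rw [norm_mul]
        exact (mul_le_of_le_one_left (norm_nonneg _) hr).trans_lt w3
      have hne := one_add_ne hrP
      obtain ⟨x', hx'⟩ : ∃ x' : K, x' = r * ξ * d / (1 + r * (ξ - 1)) := ⟨_, rfl⟩
      have e0 : (1 + r * (ξ - 1)) * x' = r * ξ * d := by
        rw [hx']
        exact mul_div_cancel₀ _ hne
      have e1 : 1 + r * (ξ * (1 + d) - 1) = (1 + r * (ξ - 1)) * (1 + x') := by
        linear_combination -e0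
      have hx'n : ‖x'‖ ≤ ‖d‖ := by
        rw [hx', norm_div, norm_mul, norm_mul, hξ1, mul_one, norm_one_add hrP, div_one]
        exact mul_le_of_le_one_left (norm_nonneg _) hr
      have hx'1 : ‖x'‖ < 1 := hx'n.trans_lt hd
      rw [e1, hLog.mul _ _ hne (one_add_ne hx'1)]
      have h1 := glb p hp hp7 K he Log hLog k ξ r hξ hr
      rw [← hπ] at h1
      have h2 : ‖(p : K) ^ k * Log (1 + x')‖ ≤ th p ^ 2 :=
        (pk_log hL hx'1 ((pow_le_pow_left₀ (norm_nonneg _) hx'n _).trans_lt hdk) tp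
          (ht3.trans ht2).le).le.trans ht3.le
      have h3 : ‖(r - r ^ p) ^ (p ^ k) - (r ^ (p ^ k) - r ^ (p ^ (k + 1)))‖ ≤ (p : ℝ)⁻¹ := by
        have h4 := frob hp hodd hpn hr (b := r ^ p) (by
          rw [norm_pow]
          exact pow_le_one₀ (norm_nonneg _) hr) k
        have h5 : (r ^ p) ^ (p ^ k) = r ^ (p ^ (k + 1)) := by
          rw [← pow_mul, pow_succ' p k]
        rwa [h5] at h4
      have h6 : ‖π * ((r - r ^ p) ^ (p ^ k) - (r ^ (p ^ k) - r ^ (p ^ (k + 1))))‖ ≤ th p ^ 2 := by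
        rw [norm_mul, hπn]
        have h7 : (p : ℝ)⁻¹ ≤ th p := (tp.trans (ht3.trans ht2)).le
        nlinarith [norm_nonneg ((r - r ^ p) ^ (p ^ k) - (r ^ (p ^ k) - r ^ (p ^ (k + 1))))]
      have e2 : (p : K) ^ k * ((n : K) * (Log (1 + r * (ξ - 1)) + Log (1 + x'))) -
          π * ((n : K) * (r - r ^ p) ^ (p ^ k)) =
          (n : K) * (((p : K) ^ k * Log (1 + r * (ξ - 1)) -
            π * (r ^ (p ^ k) - r ^ (p ^ (k + 1)))) + (p : K) ^ k * Log (1 + x') -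
            π * ((r - r ^ p) ^ (p ^ k) - (r ^ (p ^ k) - r ^ (p ^ (k + 1))))) := by
        ring
      rw [e2, norm_mul]
      exact mul_le_mul hn (sub_le' (add_le' h1 h2) h6) (norm_nonneg _) hN0.le
    have k1 := key r₁ n₁ hr₁ (by rw [hNd]; exact le_max_left _ _)
    have k2 := key r₂ n₂ hr₂ (by rw [hNd]; exact le_max_right _ _)
    have k3 := add_le' k1 k2
    obtain ⟨S, hS⟩ : ∃ S : K, S = (n₁ : K) * Log (1 + r₁ * (ξ * (1 + d) - 1)) +
      (n₂ : K) * Log (1 + r₂ * (ξ * (1 + d) - 1)) := ⟨_, rfl⟩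
    have e3 : (p : K) ^ k * ((n₁ : K) * Log (1 + r₁ * (ξ * (1 + d) - 1))) -
          π * ((n₁ : K) * (r₁ - r₁ ^ p) ^ (p ^ k)) +
        ((p : K) ^ k * ((n₂ : K) * Log (1 + r₂ * (ξ * (1 + d) - 1))) -
          π * ((n₂ : K) * (r₂ - r₂ ^ p) ^ (p ^ k))) =
        (p : K) ^ k * S - π * ((n₁ : K) * (r₁ - r₁ ^ p) ^ (p ^ k) +
          (n₂ : K) * (r₂ - r₂ ^ p) ^ (p ^ k)) := by
      rw [hS]
      ring
    rw [e3] at k3
    have hmain : ‖π * ((n₁ : K) * (r₁ - r₁ ^ p) ^ (p ^ k) +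
        (n₂ : K) * (r₂ - r₂ ^ p) ^ (p ^ k))‖ = th p * N := by
      rw [norm_mul, hπn, hc]
    have hlt : N * th p ^ 2 < th p * N := by nlinarith
    have hpS : ‖(p : K) ^ k * S‖ = th p * N := by
      have e4 : (p : K) ^ k * S = π * ((n₁ : K) * (r₁ - r₁ ^ p) ^ (p ^ k) +
          (n₂ : K) * (r₂ - r₂ ^ p) ^ (p ^ k)) + ((p : K) ^ k * S -
          π * ((n₁ : K) * (r₁ - r₁ ^ p) ^ (p ^ k) + (n₂ : K) * (r₂ - r₂ ^ p) ^ (p ^ k))) := by
        ring
      rw [e4, norm_add_of_lt (by rw [hmain]; exact k3.trans_lt hlt), hmain]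
    have hSn : th p ≤ ‖S‖ := by
      rw [norm_mul, norm_pow, hpn] at hpS
      have h1 : 0 < ((p : ℝ)⁻¹) ^ k := by have := hp.pos; positivity
      have h2 : ((p : ℝ)⁻¹) ^ k * th p ≤ ((p : ℝ)⁻¹) ^ k * ‖S‖ := by
        rw [hpS, mul_comm]
        exact mul_le_mul_of_nonneg_left hN t0.le
      exact le_of_mul_le_mul_left h2 h1
    rw [add_assoc, ← hS, add_comm, norm_add_of_lt (by rw [hfirst]; exact ht2.trans_le hSn)]
    exact ht2.le.trans hSn

end Pool.Agent.ZPK.H78
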