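import Pool.Agent.ZPK.StmtsR2

/-!
# Squad ZPK, row UPF: reduction of the upper end to the missing case
-/

set_option autoImplicit false

namespace Pool.Agent.ZPK.H78

open Pool.Agent.ZPT Pool.Agent.ZP3

theorem norm_three {K : Type} [NormedField K] [IsUltrametricDist K] {a b c r : K}
    (hc : c ≠ 0) (hbc : b ≠ 0 → ‖b‖ ≠ ‖c‖) (hab : a ≠ 0 → b ≠ 0 → ‖a‖ ≠ ‖b‖)
    (hac : a ≠ 0 → ‖a‖ ≠ ‖c‖) (hr : ‖r‖ < max ‖b‖ ‖c‖) :
    (a ≠ 0 ∧ ‖a + (b + c + r)‖ = ‖a‖) ∨ (b ≠ 0 ∧ ‖a + (b + c + r)‖ = ‖b‖) ∨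
      ‖a + (b + c + r)‖ = ‖c‖ := by
  have hcp : 0 < ‖c‖ := norm_pos_iff.2 hc
  have h1 : ‖b‖ ≠ ‖c‖ := by
    by_cases hb : b = 0
    · rw [hb, norm_zero]
      exact hcp.ne
    · exact hbc hb
  have h2 : ‖b + c‖ = max ‖b‖ ‖c‖ := IsUltrametricDist.norm_add_eq_max_of_norm_ne_norm h1
  have h3 : ‖b + c + r‖ = max ‖b‖ ‖c‖ := by
    rw [IsUltrametricDist.norm_add_eq_max_of_norm_ne_norm (by rw [h2]; exact hr.ne'), h2,
      max_eq_left hr.le]
  have h4 : 0 < max ‖b‖ ‖c‖ := lt_max_of_lt_right hcp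
  have h5 : max ‖b‖ ‖c‖ = ‖b‖ ∧ b ≠ 0 ∨ max ‖b‖ ‖c‖ = ‖c‖ := by
    rcases le_total ‖b‖ ‖c‖ with h | h
    · exact Or.inr (max_eq_right h)
    · refine Or.inl ⟨max_eq_left h, fun hb => ?_⟩
      rw [hb, norm_zero] at h
      linarith
  by_cases ha : a = 0
  · rw [ha, zero_add, h3]
    rcases h5 with ⟨h6, h7⟩ | h6
    · exact Or.inr (Or.inl ⟨h7, h6⟩)
    · exact Or.inr (Or.inr h6)
  · have h6 : ‖a‖ ≠ max ‖b‖ ‖c‖ := by
      rcases h5 with ⟨h7, h8⟩ | h7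
      · rw [h7]
        exact hab ha h8
      · rw [h7]
        exact hac ha
    rw [IsUltrametricDist.norm_add_eq_max_of_norm_ne_norm (by rw [h3]; exact h6), h3]
    rcases le_total ‖a‖ (max ‖b‖ ‖c‖) with h | h
    · rw [max_eq_right h]
      rcases h5 with ⟨h7, h8⟩ | h7
      · exact Or.inr (Or.inl ⟨h8, h7⟩)
      · exact Or.inr (Or.inr h7)
    · exact Or.inl ⟨ha, max_eq_left h⟩

theorem rp_pow {P : ℝ} (hP : 0 < P) (x : ℝ) (n : ℕ) : (P ^ x) ^ n = P ^ (x * n) := by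
  rw [Real.rpow_mul hP.le, Real.rpow_natCast]

theorem upf (h1 : ZP3.THBStmt) (h2 : AruStmt) : UpfStmt := by
  intro p E hp hE1 hE K _ _ _ hExt s A B e e' m j N t y T κ H τ μ hs ht he1' heE' he1 heE hA hco hB
    hLa hSm hth hy hτ hH hκ hμ hT hpB hj hTn
  have hE4 : 4 * E + 4 < p := by nlinarith
  have h5 : 5 ≤ p := by omega
  obtain ⟨t1, t2, t3, -, -⟩ := h1 p hp h5
  obtain ⟨P, hPdef⟩ : ∃ P : ℝ, P = (p : ℝ) := ⟨_, rfl⟩
  have hP1 : 1 < P := by
    rw [hPdef]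
    exact_mod_cast (by omega : 1 < p)
  have hP0 : 0 < P := by linarith
  obtain ⟨S, hSdef⟩ : ∃ S : ℝ, S = (s : ℝ) := ⟨_, rfl⟩
  have hinj : ∀ x z : ℝ, P ^ x = P ^ z → x = z := by
    intro x z h
    exact (Real.strictMono_rpow_of_base_gt_one hP1).injective h
  have hlt : ∀ x z : ℝ, P ^ x < P ^ z → x < z := fun x z h =>
    (Real.rpow_lt_rpow_left_iff hP1).1 h
  have hle : ∀ x z : ℝ, P ^ x ≤ P ^ z → x ≤ z := fun x z h =>
    (Real.rpow_le_rpow_left_iff hP1).1 h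
  have hinv : P⁻¹ = P ^ (-1 : ℝ) := by
    rw [Real.rpow_neg_one]
  rw [← hPdef, ← hSdef] at ht
  have htn : ∀ n : ℕ, ‖t‖ ^ n = P ^ (-S * n) := fun n => by rw [ht, rp_pow hP0]
  have htne : t ≠ 0 := by
    intro h
    rw [h, norm_zero] at ht
    have := Real.rpow_pos_of_pos hP0 (-S)
    linarith
  have hpn : ‖(p : K)‖ = P⁻¹ := by
    have h3 := hExt (p : ℚ)
    rw [Rat.cast_natCast] at h3
    rw [h3, padicNorm.padicNorm_p hp.one_lt, hPdef]
    push_cast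
    rfl
  have hpne : (p : K) ≠ 0 := by
    intro h
    rw [h, norm_zero] at hpn
    have := inv_pos.2 hP0
    linarith
  -- basic inequalities
  have hAr : (0 : ℝ) < A := by exact_mod_cast (by omega : 0 < A)
  have hBr : (B : ℝ) = e' * S * A := by
    rw [hSdef]
    exact_mod_cast congrArg (fun q : ℚ => (q : ℝ)) hB
  have hSpos : 0 < S := by
    rw [hSdef]
    exact_mod_cast hs
  have heS : (e' : ℝ) * S = B / A := by
    rw [hBr]
    field_simp
  have hBpos : 1 ≤ B := by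
    have h3 : (0 : ℝ) < B := by
      rw [hBr]
      have : (0 : ℝ) < e' := by exact_mod_cast (by omega : 0 < e')
      positivity
    exact_mod_cast h3
  have hSm' : (e' : ℝ) * S < 1 := by
    have h3 : P⁻¹ < ‖t‖ ^ e' := by rw [hPdef]; exact hSm
    rw [htn, hinv] at h3
    have := hlt _ _ h3
    linarith
  have hBA : B < A := by
    have h3 : (B : ℝ) < A := by
      rw [hBr]
      calc (e' : ℝ) * S * A < 1 * A := mul_lt_mul_of_pos_right hSm' hAr
        _ = A := one_mul _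
    exact_mod_cast h3
  have hyn : ‖y‖ = P ^ (-(((A : ℝ) - B) / A)) := by
    rw [hy, norm_div, norm_pow, hpn, htn, hinv, ← Real.rpow_sub hP0]
    congr 1
    have h3 : ((A : ℝ) - B) / A = 1 - e' * S := by
      rw [heS, sub_div, div_self hAr.ne']
    rw [h3]
    ring
  have hABc : (((A - B : ℕ)) : ℝ) = (A : ℝ) - B := Nat.cast_sub hBA.le
  have hp1c : (((p - 1 : ℕ)) : ℝ) = P - 1 := by
    rw [Nat.cast_sub (by omega : 1 ≤ p), Nat.cast_one, hPdef]
  have hI1 : (A - B) * (p - 1) ≤ 2 * A := by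
    have h3 : (th p ^ 2) ^ (p - 1) ≤ ‖y‖ ^ (p - 1) := by
      rw [hy]
      exact pow_le_pow_left₀ (by positivity) hth _
    have h4 : (th p ^ 2) ^ (p - 1) = P ^ (-2 : ℝ) := by
      rw [← pow_mul, mul_comm, pow_mul, t1, ← hPdef, hinv, rp_pow hP0]
      norm_num
    rw [h4, hyn, rp_pow hP0] at h3
    have h6 := hle _ _ h3
    have h7 : ((A : ℝ) - B) / A * ((p - 1 : ℕ) : ℝ) ≤ 2 := by linarith
    have h8 : ((A : ℝ) - B) * ((p - 1 : ℕ) : ℝ) ≤ 2 * A := by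
      have h9 : ((A : ℝ) - B) * ((p - 1 : ℕ) : ℝ) = (((A : ℝ) - B) / A * ((p - 1 : ℕ) : ℝ)) * A := by
        field_simp
      rw [h9]
      exact mul_le_mul_of_nonneg_right h7 hAr.le
    have h9 : (((A - B) * (p - 1) : ℕ) : ℝ) ≤ ((2 * A : ℕ) : ℝ) := by
      rw [Nat.cast_mul, hABc, Nat.cast_mul]
      exact_mod_cast h8
    exact_mod_cast h9
  obtain ⟨r1, r2⟩ := h2 p E hp h5 hE4 A B (padicValNat p B) j e' hBpos hBA hco he1' heE'
  obtain ⟨β, hβ⟩ : ∃ β, β = padicValNat p B := ⟨_, rfl⟩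
  rw [← hβ] at r2
  have : Fact p.Prime := ⟨hp⟩
  have hB0 : B ≠ 0 := by omega
  have hβ1 : 1 ≤ β := by
    rw [hβ]
    exact one_le_padicValNat_of_dvd hB0 hpB
  have hβd : p ^ β ∣ B := by
    rw [hβ]
    exact pow_padicValNat_dvd
  have hβn : ¬ p ^ (β + 1) ∣ B := by
    rw [hβ]
    exact pow_succ_padicValNat_not_dvd hB0
  have hBn : ‖(B : K)‖ = P ^ (-(β : ℝ)) := by
    have h3 := hExt (B : ℚ)
    rw [Rat.cast_natCast] at h3
    rw [h3, padicNorm.eq_zpow_of_nonzero (by exact_mod_cast hB0), padicValRat.of_nat, ← hβ, hPdef,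
      Real.rpow_neg (by positivity), Real.rpow_natCast]
    push_cast
    rw [zpow_neg, zpow_natCast]
  have hdom : 1 ≤ j → (A - B) * (p - 1) * p ^ (j - 1) < A := by
    intro hj1
    have h3 := hj hj1
    rw [← hPdef, hinv, hyn, rp_pow hP0] at h3
    have h4 := hlt _ _ h3
    have h6 : ((A : ℝ) - B) / A * ((p ^ (j - 1) * (p - 1) : ℕ) : ℝ) < 1 := by linarith
    have h7 : ((A : ℝ) - B) * ((p ^ (j - 1) * (p - 1) : ℕ) : ℝ) < A := by
      have h9 : ((A : ℝ) - B) * ((p ^ (j - 1) * (p - 1) : ℕ) : ℝ)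
          = (((A : ℝ) - B) / A * ((p ^ (j - 1) * (p - 1) : ℕ) : ℝ)) * A := by
        field_simp
      rw [h9]
      calc _ < 1 * (A : ℝ) := mul_lt_mul_of_pos_right h6 hAr
        _ = A := one_mul _
    have h8 : (((A - B) * (p - 1) * p ^ (j - 1) : ℕ) : ℝ) < (A : ℝ) := by
      rw [Nat.cast_mul, Nat.cast_mul, hABc]
      rw [Nat.cast_mul] at h7
      calc ((A : ℝ) - B) * ((p - 1 : ℕ) : ℝ) * ((p ^ (j - 1) : ℕ) : ℝ)
          = ((A : ℝ) - B) * (((p ^ (j - 1) : ℕ) : ℝ) * ((p - 1 : ℕ) : ℝ)) := by ring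
        _ < A := h7
    exact_mod_cast h8
  obtain ⟨q1, q2, q3⟩ := r2 hβ1 hβd hβn hdom
  have hTe : ‖T‖ = P ^ (-(β : ℝ) + (j : ℝ) - (p : ℝ) ^ j * (((A : ℝ) - B) / A)) := by
    rw [hTn, hBn, hyn, rp_pow hP0, ← hPdef, ← Real.rpow_natCast P j, ← Real.rpow_add hP0,
      ← Real.rpow_add hP0]
    congr 1
    rw [hPdef]
    push_cast
    rw [Real.rpow_natCast]
    ring
  -- the three terms
  have hcn : ‖τ * (t ^ e / (p : K))‖ = P ^ (1 - S * e) := by
    rw [norm_mul, hτ, one_mul, norm_div, norm_pow, hpn, htn, hinv, ← Real.rpow_sub hP0]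
    congr 1
    ring
  have hcn' : ‖t ^ e / (p : K)‖ = ‖τ * (t ^ e / (p : K))‖ := by
    rw [norm_mul, hτ, one_mul]
  have hc0 : τ * (t ^ e / (p : K)) ≠ 0 := by
    rw [← norm_pos_iff, hcn]
    exact Real.rpow_pos_of_pos hP0 _
  have hbn' : ‖H * t ^ m‖ = ‖H‖ * ‖t‖ ^ m := by
    rw [norm_mul, norm_pow]
  have hbn : H * t ^ m ≠ 0 → 1 ≤ m ∧ m < e ∧ ‖H * t ^ m‖ = P ^ (-(S * m)) := by
    intro h
    rcases hH with h3 | ⟨h3, h4, h6⟩
    · rw [h3, zero_mul] at h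
      exact absurd rfl h
    · refine ⟨h3, h4, ?_⟩
      rw [hbn', h6, one_mul, htn]
      congr 1
      ring
  have han : κ ≠ 0 → ‖κ‖ = P ^ (-(N : ℝ)) := by
    intro h
    rcases hκ with h3 | h3
    · exact absurd h3 h
    · rw [h3, ← hPdef, hinv, rp_pow hP0]
      congr 1
      ring
  have hSA : ∀ n : ℝ, n * B = n * e' * S * A := by
    intro n
    rw [hBr]
    ring
  have hr : ‖T - κ - (H * t ^ m + τ * (t ^ e / p))‖
      < max ‖H * t ^ m‖ ‖τ * (t ^ e / (p : K))‖ := by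
    refine lt_of_le_of_lt hT ?_
    rw [hcn', hbn']
    have h3 : 0 < max (‖H‖ * ‖t‖ ^ m) ‖τ * (t ^ e / (p : K))‖ :=
      lt_max_of_lt_right (norm_pos_iff.2 hc0)
    calc μ * max (‖H‖ * ‖t‖ ^ m) ‖τ * (t ^ e / (p : K))‖
        < 1 * max (‖H‖ * ‖t‖ ^ m) ‖τ * (t ^ e / (p : K))‖ := mul_lt_mul_of_pos_right hμ h3
      _ = _ := one_mul _
  have hthree := norm_three (a := κ) (b := H * t ^ m) (c := τ * (t ^ e / (p : K)))
    (r := T - κ - (H * t ^ m + τ * (t ^ e / p))) hc0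
    (by
      intro hb h3
      obtain ⟨m1, m2, m3⟩ := hbn hb
      rw [m3, hcn] at h3
      have h4 := hinj _ _ h3
      refine r1 hI1 (e - m) 1 (by omega) (by omega) ?_
      have h6 : (((e - m) * B : ℕ) : ℝ) = ((1 * e' * A : ℕ) : ℝ) := by
        rw [Nat.cast_mul, Nat.cast_sub m2.le, hSA]
        push_cast
        have h7 : ((e : ℝ) - m) * S = 1 := by linarith
        calc ((e : ℝ) - m) * e' * S * A = (((e : ℝ) - m) * S) * (e' * A) := by ring
          _ = 1 * e' * A := by rw [h7]; ring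
      exact_mod_cast h6)
    (by
      intro ha hb h3
      obtain ⟨m1, m2, m3⟩ := hbn hb
      rw [m3, han ha] at h3
      have h4 := hinj _ _ h3
      refine r1 hI1 m N (by omega) (by omega) ?_
      have h6 : ((m * B : ℕ) : ℝ) = ((N * e' * A : ℕ) : ℝ) := by
        rw [Nat.cast_mul, hSA]
        push_cast
        have h7 : (N : ℝ) = S * m := by linarith
        rw [h7]
        ring
      exact_mod_cast h6)
    (by
      intro ha h3
      rw [han ha, hcn] at h3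
      have h4 := hinj _ _ h3
      refine r1 hI1 e (N + 1) (by omega) (by omega) ?_
      have h6 : ((e * B : ℕ) : ℝ) = (((N + 1) * e' * A : ℕ) : ℝ) := by
        rw [Nat.cast_mul, hSA]
        push_cast
        have h7 : (N : ℝ) + 1 = S * e := by linarith
        rw [h7]
        ring
      exact_mod_cast h6)
    hr
  have hsum : κ + (H * t ^ m + τ * (t ^ e / (p : K)) + (T - κ - (H * t ^ m + τ * (t ^ e / p))))
      = T := by ring
  rw [hsum] at hthree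
  have hABdiv : ((A : ℝ) - B) / A * A = (A : ℝ) - B := div_mul_cancel₀ _ hAr.ne'
  rcases hthree with ⟨h3, h4⟩ | ⟨h3, h4⟩ | h4
  · exfalso
    rw [han h3, hTe] at h4
    have h6 := hinj _ _ h4
    refine q1 (N : ℤ) ?_
    have h7 : (p : ℝ) ^ j * ((A : ℝ) - B) - j * A = ((N : ℝ) - β) * A := by
      rw [← hABdiv]
      linear_combination (-(A : ℝ)) * h6
    exact_mod_cast h7
  · obtain ⟨m1, m2, m3⟩ := hbn h3
    rw [m3, hTe] at h4
    have h6 := hinj _ _ h4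
    have h7 : (e' : ℝ) * (p : ℝ) ^ j * ((A : ℝ) - B) - e' * j * A = m * B - e' * β * A := by
      rw [hSA]
      rw [← hABdiv]
      linear_combination (-(e' * A : ℝ)) * h6
    obtain ⟨g1, g2⟩ := q3 m m1 (by omega) (by exact_mod_cast h7)
    refine ⟨m1, m2, β, hβ1, ?_⟩
    have h8 : (B : ℚ) * (m + e' * (p : ℚ) ^ β) = A * (e' * (p : ℚ) ^ β) := by exact_mod_cast g2
    have h9 : (e' : ℚ) * A ≠ 0 := by
      have : (0 : ℚ) < e' := by exact_mod_cast (by omega : 0 < e')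
      have : (0 : ℚ) < A := by exact_mod_cast (by omega : 0 < A)
      positivity
    refine mul_left_cancel₀ h9 ?_
    calc (e' : ℚ) * A * (((m : ℚ) + e' * (p : ℚ) ^ β) * s)
        = (e' * s * A) * (m + e' * (p : ℚ) ^ β) := by ring
      _ = A * (e' * (p : ℚ) ^ β) := by rw [← hB, h8]
      _ = e' * A * (p : ℚ) ^ β := by ring
  · exfalso
    rw [hcn, hTe] at h4
    have h6 := hinj _ _ h4
    refine q2 e he1 heE ?_
    have h7 : (e' : ℝ) * (p : ℝ) ^ j * ((A : ℝ) - B) - e' * j * A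
        = e * B - e' * A - e' * β * A := by
      rw [hSA]
      rw [← hABdiv]
      linear_combination (-(e' * A : ℝ)) * h6
    exact_mod_cast h7

end Pool.Agent.ZPK.H78
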